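import Pool.Agent.N634.SH.Gen

/-!
MP_b509a1_ag, Q1: entire curves of slow transcendental growth in almost all hypersurfaces of degree
at least `2n + 2` in `ℙ^{n+1}`, in complete intersections and in their complements.
-/

set_option autoImplicit false

namespace Pool.Agent.Results.MP_b509a1_ag.SlowEntireCurves

open MvPolynomial MeasureTheory
open Pool.Agent.N634.SH Pool.Agent.R871.SG

/-- Let `V = {G = 0}` be a closed projective variety in `ℙ^n` whose homogeneous coordinate ring has
transcendence degree at most `m + 1` (so `dim V ≤ m`; for instance `V = ℙ^m`, `n = m`, no equations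
`G`), let `d_i` (`i < q`) be degrees and `Z` a set of indices with `2 m + 1 ≤ ∑ d_i + #Z`. (For
`V = ℙ^m`, `q = 1`, `Z = {0}`: hypersurfaces of degree `d ≥ 2 m` in `ℙ^m`, which is the range of Q1,
`d ≥ 2 n' + 2` in `ℙ^{n'+1}`.) The forms `F_i` of the degrees `d_i` in `n + 1` variables are given by
the vector `c : Ix n d → ℂ` of all their coefficients, `F_i = form c i`. There are nonzero polynomials
`Φ_N` in these coefficients such that:

(1) for every countable union `⋃ K_l` of closed sets of coefficients on which no `Φ_N` vanishes there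
is one growth function `φ`, `φ r / log r → ∞`, such that for all `c` in the union `AllConstIn G φ Z c`
holds: all entire curves in `V`, given by entire homogeneous coordinates `f` with
`log ‖f z‖ ≤ φ r` on `|z| ≤ r` for arbitrarily large `r`, which lie in `F_i = 0` for `i ∈ Z` and omit
`F_i = 0` for `i ∉ Z`, are constant;

(2) there is one growth function `φ` such that `AllConstIn G φ Z c` holds for almost all `c` in the
sense of the Lebesgue measure. -/
theorem result (n q m : ℕ) (κ : Type) (G : κ → MvPolynomial (Fin (n + 1)) ℂ)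
    (hG : ∀ k, ∃ e, (G k).IsHomogeneous e)
    (hdim : Algebra.trdeg ℂ (MvPolynomial (Fin (n + 1)) ℂ ⧸ Ideal.span (Set.range G)) ≤ m + 1)
    (d : Fin q → ℕ) (Z : Finset (Fin q)) (hZ : 2 * m + 1 ≤ ∑ i, d i + Z.card) :
    ∃ Φ : ℕ → MvPolynomial (Ix n d) ℂ, (∀ N, Φ N ≠ 0) ∧
      (∀ K : ℕ → Set (Ix n d → ℂ), (∀ l, IsClosed (K l)) →
        (∀ l, ∀ c ∈ K l, ∀ N, eval c (Φ N) ≠ 0) →
        ∃ φ : ℝ → ℝ, Grows φ ∧ ∀ l, ∀ c ∈ K l, AllConstIn G φ Z c) ∧
      ∃ φ : ℝ → ℝ, Grows φ ∧ ∀ᵐ c : Ix n d → ℂ, AllConstIn G φ Z c :=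
  main_gen G hG hdim d Z hZ

end Pool.Agent.Results.MP_b509a1_ag.SlowEntireCurves
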